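import Pool.Agent.Helper74.CW.BIG

/-!
# Linear sets: counting for a plane of conic type

`T = ⟨1, a, a ^ 2⟩`, `S = ⟨1, a, f(a) / g(a)⟩` with coprime polynomials `f`, `g` of degree at most `3` and
`2`: the `ξ` with `dim (S ∩ ξ T) = 2` are `1 / (α + β a)`, `u (a - c) / g(a)` with `g(c) ≠ 0`, and
`u / g(a)` if `g` has degree `2`.
-/

namespace Pool.Agent.Helper74.CW

open Module Polynomial

variable {F K : Type*} [Field F] [Field K] [Algebra F K]

private theorem conc_mem_sc {ξ : K} {T : Submodule F K} {x : K} :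
    x ∈ sc ξ T ↔ ∃ t ∈ T, ξ * t = x := by
  unfold sc
  simp [Submodule.mem_map]

private theorem conc_mem_L {a x : K} :
    x ∈ Submodule.span F {1, a} ↔ ∃ p : F[X], p.natDegree ≤ 1 ∧ aeval a p = x := by
  rw [Submodule.mem_span_pair]
  constructor
  · rintro ⟨α, β, rfl⟩
    refine ⟨C α + C β * X, ?_, ?_⟩
    · rw [add_comm]
      exact natDegree_linear_le
    · simp [Algebra.smul_def]
  · rintro ⟨p, hp, rfl⟩
    refine ⟨p.coeff 0, p.coeff 1, ?_⟩
    rw [aeval_eq_sum_range' (n := 2) (by omega)]
    simp [Finset.sum_range_succ]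

private theorem conc_mem_T {a x : K} :
    x ∈ Submodule.span F {1, a, a ^ 2} ↔ ∃ p : F[X], p.natDegree ≤ 2 ∧ aeval a p = x := by
  rw [Submodule.mem_span_triple]
  constructor
  · rintro ⟨α, β, γ, rfl⟩
    refine ⟨C γ * X ^ 2 + C β * X + C α, ?_, ?_⟩
    · exact natDegree_quadratic_le
    · simp [Algebra.smul_def]
      ring
  · rintro ⟨p, hp, rfl⟩
    refine ⟨p.coeff 0, p.coeff 1, p.coeff 2, ?_⟩
    rw [aeval_eq_sum_range' (n := 3) (by omega)]
    simp [Finset.sum_range_succ]

private theorem conc_mem_S {a h x : K} :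
    x ∈ Submodule.span F {1, a, h} ↔ ∃ (p : F[X]) (γ : F), p.natDegree ≤ 1 ∧
      aeval a p + γ • h = x := by
  rw [Submodule.mem_span_triple]
  constructor
  · rintro ⟨α, β, γ, rfl⟩
    refine ⟨C β * X + C α, γ, ?_, ?_⟩
    · exact natDegree_linear_le
    · simp [Algebra.smul_def]
      ring
  · rintro ⟨p, γ, hp, rfl⟩
    refine ⟨p.coeff 0, p.coeff 1, γ, ?_⟩
    rw [aeval_eq_sum_range' (n := 2) (by omega)]
    simp [Finset.sum_range_succ]

private theorem conc_inj (hB : Big F K) {a : K} (ha : a ∉ Set.range (algebraMap F K))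
    {p q : F[X]} (hp : p.natDegree ≤ 6) (hq : q.natDegree ≤ 6) (h : aeval a p = aeval a q) :
    p = q := by
  have h1 : p - q = 0 := by
    refine hB.poly ha ?_ (by rw [map_sub, h, sub_self])
    exact le_trans (natDegree_sub_le _ _) (max_le hp hq)
  exact sub_eq_zero.1 h1

private theorem conc_ne (hB : Big F K) {a : K} (ha : a ∉ Set.range (algebraMap F K))
    {p : F[X]} (hp : p.natDegree ≤ 6) (h : p ≠ 0) : aeval a p ≠ 0 := by
  intro h0
  exact h (hB.poly ha hp h0)

/-- independence -/
private theorem conc_indep (hB : Big F K) {a : K}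
    (ha : a ∉ Set.range (algebraMap F K)) {f g : F[X]} (hf : f.natDegree ≤ 3)
    (hg : g.natDegree ≤ 2) (hg0 : g ≠ 0) (hco : IsCoprime f g)
    (hinf : f.coeff 3 ≠ 0 ∨ g.coeff 2 ≠ 0) {p : F[X]} {γ : F} (hp : p.natDegree ≤ 1)
    (h : aeval a p + γ • (aeval a f / aeval a g) = 0) : p = 0 ∧ γ = 0 := by
  have hga : aeval a g ≠ 0 := conc_ne hB ha (by omega) hg0
  have h1 : aeval a (p * g + C γ * f) = 0 := by
    rw [map_add, map_mul, map_mul, aeval_C]
    rw [Algebra.smul_def] at h
    field_simp at h
    linear_combination h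
  have h2 : p * g + C γ * f = 0 := by
    refine hB.poly ha ?_ h1
    refine le_trans (natDegree_add_le _ _) (max_le ?_ ?_)
    · exact le_trans natDegree_mul_le (by omega)
    · exact le_trans (natDegree_C_mul_le _ _) (by omega)
  by_cases hγ : γ = 0
  · refine ⟨?_, hγ⟩
    rw [hγ, C_0, zero_mul, add_zero] at h2
    exact (mul_eq_zero.1 h2).resolve_right hg0
  · exfalso
    have h3 : g ∣ C γ * f := by
      have : C γ * f = - (p * g) := by linear_combination h2
      rw [this]
      exact (dvd_mul_left g p).neg_right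
    have h4 : g ∣ C γ := hco.symm.dvd_of_dvd_mul_right h3
    have h5 : g.natDegree = 0 := by
      have := natDegree_le_of_dvd h4 (by rwa [Ne, C_eq_zero])
      rw [natDegree_C] at this
      omega
    rcases hinf with h6 | h6
    · apply h6
      have h7 : (p * g + C γ * f).coeff 3 = 0 := by rw [h2, coeff_zero]
      rw [coeff_add, coeff_C_mul, coeff_eq_zero_of_natDegree_lt
        (lt_of_le_of_lt natDegree_mul_le (by omega)), zero_add] at h7
      exact (mul_eq_zero.1 h7).resolve_left hγ
    · exact h6 (coeff_eq_zero_of_natDegree_lt (by omega))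

private theorem conc_indep_L (hB : Big F K) {a : K} (ha : a ∉ Set.range (algebraMap F K)) :
    LinearIndependent F ![1, a] := by
  rw [LinearIndependent.pair_iff]
  intro α β h
  have h1 : aeval a (C β * X + C α) = 0 := by
    rw [← h]
    simp [Algebra.smul_def]
    ring
  have h2 := hB.poly ha (le_trans natDegree_linear_le (by norm_num)) h1
  have h3 := congrArg (fun p => Polynomial.coeff p 0) h2
  have h4 := congrArg (fun p => Polynomial.coeff p 1) h2
  simp at h3 h4
  exact ⟨h3, h4⟩

private theorem conc_finrank_L (hB : Big F K) {a : K} (ha : a ∉ Set.range (algebraMap F K)) :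
    finrank F ↥(Submodule.span F {1, a}) = 2 := by
  have h1 := finrank_span_eq_card (conc_indep_L hB ha)
  rw [Matrix.range_cons, Matrix.range_cons, Matrix.range_empty, Set.union_empty,
    Set.singleton_union] at h1
  rw [h1, Fintype.card_fin]

private theorem conc_indep_S (hB : Big F K) {a : K}
    (ha : a ∉ Set.range (algebraMap F K)) {f g : F[X]} (hf : f.natDegree ≤ 3)
    (hg : g.natDegree ≤ 2) (hg0 : g ≠ 0) (hco : IsCoprime f g)
    (hinf : f.coeff 3 ≠ 0 ∨ g.coeff 2 ≠ 0) :
    LinearIndependent F ![1, a, aeval a f / aeval a g] := by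
  rw [Fintype.linearIndependent_iff]
  intro c hc
  rw [Fin.sum_univ_three] at hc
  simp only [Matrix.cons_val_zero, Matrix.cons_val_one, Matrix.cons_val] at hc
  have h1 := conc_indep hB ha hf hg hg0 hco hinf (p := C (c 1) * X + C (c 0)) (γ := c 2)
    natDegree_linear_le (by
      rw [← hc]
      simp [Algebra.smul_def]
      ring)
  obtain ⟨h2, h3⟩ := h1
  have h4 := congrArg (fun p => Polynomial.coeff p 0) h2
  have h5 := congrArg (fun p => Polynomial.coeff p 1) h2
  simp at h4 h5
  intro i
  fin_cases i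
  · exact h4
  · exact h5
  · exact h3

private theorem conc_finrank_three {x y z : K} (h : LinearIndependent F ![x, y, z]) :
    finrank F ↥(Submodule.span F {x, y, z}) = 3 := by
  have h1 := finrank_span_eq_card h
  rw [Matrix.range_cons, Matrix.range_cons, Matrix.range_cons, Matrix.range_empty,
    Set.union_empty, Set.singleton_union, Set.singleton_union] at h1
  rw [h1, Fintype.card_fin]

private theorem conc_indep_T (hB : Big F K) {a : K} (ha : a ∉ Set.range (algebraMap F K)) :
    LinearIndependent F ![1, a, a ^ 2] := by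
  rw [Fintype.linearIndependent_iff]
  intro c hc
  rw [Fin.sum_univ_three] at hc
  simp only [Matrix.cons_val_zero, Matrix.cons_val_one, Matrix.cons_val] at hc
  have h1 : aeval a (C (c 2) * X ^ 2 + C (c 1) * X + C (c 0)) = 0 := by
    rw [← hc]
    simp [Algebra.smul_def]
    ring
  have h2 := hB.poly ha (le_trans natDegree_quadratic_le (by norm_num)) h1
  have h3 := congrArg (fun p => Polynomial.coeff p 0) h2
  have h4 := congrArg (fun p => Polynomial.coeff p 1) h2
  have h5 := congrArg (fun p => Polynomial.coeff p 2) h2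
  simp [coeff_X, coeff_C, coeff_X_pow] at h3 h4 h5
  intro i
  fin_cases i
  · exact h3
  · exact h4
  · exact h5

private theorem conc_finrank_sc [FiniteDimensional F K] {ξ : K} (hξ : ξ ≠ 0)
    (T : Submodule F K) : finrank F ↥(sc ξ T) = finrank F ↥T := by
  have h3 : Function.Injective (LinearMap.mulLeft F ξ) := by
    intro x y hxy
    simp only [LinearMap.mulLeft_apply] at hxy
    exact mul_left_cancel₀ hξ hxy
  unfold sc
  rw [← LinearEquiv.finrank_eq (Submodule.equivMapOfInjective _ h3 _)]

/-- a plane with two products in `⟨1, a⟩` -/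
private theorem conc_first (hB : Big F K) {a : K} (ha : a ∉ Set.range (algebraMap F K))
    {ξ : K} (h1 : (1 : K) ∈ sc ξ (Submodule.span F {1, a, a ^ 2}))
    (h2 : a ∈ sc ξ (Submodule.span F {1, a, a ^ 2})) :
    ∃ m : F[X], m ≠ 0 ∧ m.natDegree ≤ 1 ∧ ξ * aeval a m = 1 := by
  obtain ⟨x, hx, hx1⟩ := conc_mem_sc.1 h1
  obtain ⟨y, hy, hy1⟩ := conc_mem_sc.1 h2
  obtain ⟨p, hp, rfl⟩ := conc_mem_T.1 hx
  obtain ⟨r, hr, rfl⟩ := conc_mem_T.1 hy
  have hp0 : p ≠ 0 := by
    rintro rfl
    rw [map_zero, mul_zero] at hx1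
    exact zero_ne_one hx1
  refine ⟨p, hp0, ?_, hx1⟩
  have hξ : ξ ≠ 0 := by
    rintro rfl
    rw [zero_mul] at hx1
    exact zero_ne_one hx1
  have h3 : aeval a (X * p) = aeval a r := by
    apply mul_left_cancel₀ hξ
    rw [map_mul, aeval_X, hy1]
    linear_combination a * hx1
  have h4 := conc_inj hB ha (le_trans natDegree_mul_le (by rw [natDegree_X]; omega)) (by omega) h3
  have h5 : (X * p).natDegree = p.natDegree + 1 := natDegree_X_mul hp0
  rw [h4] at h5
  omega

/-- not similar -/
private theorem conc_not_sim (hB : Big F K) {a : K}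
    (ha : a ∉ Set.range (algebraMap F K)) {f g : F[X]} (hf : f.natDegree ≤ 3)
    (hg : g.natDegree ≤ 2) (hg0 : g ≠ 0) (hco : IsCoprime f g)
    (hinf : f.coeff 3 ≠ 0 ∨ g.coeff 2 ≠ 0) :
    ¬ Sim (Submodule.span F {1, a, aeval a f / aeval a g}) (Submodule.span F {1, a, a ^ 2}) := by
  rintro ⟨ξ, hξ, h⟩
  have hga : aeval a g ≠ 0 := conc_ne hB ha (by omega) hg0
  have h1 : (1 : K) ∈ sc ξ (Submodule.span F {1, a, a ^ 2}) := by
    rw [← h]
    exact Submodule.subset_span (by simp)
  have h2 : a ∈ sc ξ (Submodule.span F {1, a, a ^ 2}) := by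
    rw [← h]
    exact Submodule.subset_span (by simp)
  have h3 : aeval a f / aeval a g ∈ sc ξ (Submodule.span F {1, a, a ^ 2}) := by
    rw [← h]
    exact Submodule.subset_span (by simp)
  obtain ⟨m, hm0, hm, hm1⟩ := conc_first hB ha h1 h2
  obtain ⟨x, hx, hx1⟩ := conc_mem_sc.1 h3
  obtain ⟨p, hp, rfl⟩ := conc_mem_T.1 hx
  have h4 : aeval a (f * m) = aeval a (g * p) := by
    rw [map_mul, map_mul]
    field_simp at hx1
    apply mul_left_cancel₀ hξ
    linear_combination (aeval a f) * hm1 - hx1
  have h5 := conc_inj hB ha (le_trans natDegree_mul_le (by omega))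
    (le_trans natDegree_mul_le (by omega)) h4
  have h6 : g ∣ m := hco.symm.dvd_of_dvd_mul_left (h5 ▸ dvd_mul_right g p)
  have h7 : g.natDegree ≤ 1 := le_trans (natDegree_le_of_dvd h6 hm0) hm
  have h8 : f.coeff 3 ≠ 0 := by
    rcases hinf with h8 | h8
    · exact h8
    · exact absurd (coeff_eq_zero_of_natDegree_lt (by omega)) h8
  have h9 : f.natDegree = 3 := le_antisymm hf (le_natDegree_of_ne_zero h8)
  have hf0 : f ≠ 0 := by
    rintro rfl
    simp at h9
  have h10 : (f * m).natDegree = 3 + m.natDegree := by rw [natDegree_mul hf0 hm0, h9]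
  have h11 : (g * p).natDegree ≤ g.natDegree + p.natDegree := natDegree_mul_le
  have h12 := natDegree_le_of_dvd h6 hm0
  rw [h5] at h10
  omega

/-- the possible `ξ` -/
private theorem conc_forward [FiniteDimensional F K] (hB : Big F K) {a : K}
    (ha : a ∉ Set.range (algebraMap F K)) {f g : F[X]} (hf : f.natDegree ≤ 3)
    (hg : g.natDegree ≤ 2) (hg0 : g ≠ 0) (hco : IsCoprime f g)
    (hinf : f.coeff 3 ≠ 0 ∨ g.coeff 2 ≠ 0) {ξ : K} (hξ : ξ ≠ 0)
    (h : finrank F ↥(Submodule.span F {1, a, aeval a f / aeval a g} ⊓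
      sc ξ (Submodule.span F {1, a, a ^ 2})) = 2) :
    (∃ m : F[X], m ≠ 0 ∧ m.natDegree ≤ 1 ∧ ξ * aeval a m = 1) ∨
    (∃ u c : F, u ≠ 0 ∧ g.eval c ≠ 0 ∧ ξ * aeval a g = u • (a - algebraMap F K c)) ∨
    (g.coeff 2 ≠ 0 ∧ ∃ u : F, u ≠ 0 ∧ ξ * aeval a g = algebraMap F K u) := by
  have hga : aeval a g ≠ 0 := conc_ne hB ha (by omega) hg0
  set S : Submodule F K := Submodule.span F {1, a, aeval a f / aeval a g} with hS
  set T : Submodule F K := Submodule.span F {1, a, a ^ 2} with hT
  set L : Submodule F K := Submodule.span F {1, a} with hL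
  have hLS : L ≤ S := Submodule.span_mono (by
    intro x hx
    rcases hx with hx | hx
    · exact Or.inl hx
    · exact Or.inr (Or.inl hx))
  have hL2 : finrank F ↥L = 2 := conc_finrank_L hB ha
  have hS3 : finrank F ↥S = 3 := conc_finrank_three (conc_indep_S hB ha hf hg hg0 hco hinf)
  by_cases hW : S ⊓ sc ξ T ≤ L
  · left
    have h1 : S ⊓ sc ξ T = L := Submodule.eq_of_le_of_finrank_eq hW (by rw [h, hL2])
    have h2 : L ≤ sc ξ T := h1 ▸ inf_le_right
    exact conc_first hB ha (h2 (Submodule.subset_span (by simp)))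
      (h2 (Submodule.subset_span (by simp)))
  · right
    -- an element outside `L`
    obtain ⟨w, hw, hwL⟩ := SetLike.not_le_iff_exists.1 hW
    obtain ⟨r₀, γ, hr₀, hrw⟩ := conc_mem_S.1 hw.1
    have hγ : γ ≠ 0 := by
      rintro rfl
      apply hwL
      rw [zero_smul, add_zero] at hrw
      exact conc_mem_L.2 ⟨r₀, hr₀, hrw⟩
    have hw2 : γ⁻¹ • w ∈ sc ξ T := Submodule.smul_mem _ _ hw.2
    obtain ⟨x, hx, hx1⟩ := conc_mem_sc.1 hw2
    obtain ⟨p₂, hp₂, rfl⟩ := conc_mem_T.1 hx
    set r : F[X] := C γ⁻¹ * r₀ with hr_def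
    have hr : r.natDegree ≤ 1 := le_trans (natDegree_C_mul_le _ _) hr₀
    have h2 : ξ * aeval a p₂ = aeval a r + aeval a f / aeval a g := by
      rw [hx1, ← hrw, smul_add, smul_smul, inv_mul_cancel₀ hγ, one_smul, hr_def, map_mul,
        aeval_C, Algebra.smul_def]
    -- an element of `L`
    have h3 : (S ⊓ sc ξ T) ⊓ L ≠ ⊥ := by
      intro h0
      have h4 := Submodule.finrank_sup_add_finrank_inf_eq (S ⊓ sc ξ T) L
      have h5 : finrank F ↥((S ⊓ sc ξ T) ⊔ L) ≤ finrank F ↥S :=
        Submodule.finrank_mono (sup_le inf_le_left hLS)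
      rw [h0, finrank_bot, h, hL2] at h4
      omega
    obtain ⟨z, hz, hz0⟩ := Submodule.exists_mem_ne_zero_of_ne_bot h3
    obtain ⟨l, hl, rfl⟩ := conc_mem_L.1 hz.2
    obtain ⟨y, hy, hy1⟩ := conc_mem_sc.1 hz.1.2
    obtain ⟨p₁, hp₁, rfl⟩ := conc_mem_T.1 hy
    have hl0 : l ≠ 0 := by
      rintro rfl
      exact hz0 (map_zero _)
    have hp₁0 : p₁ ≠ 0 := by
      rintro rfl
      rw [map_zero, mul_zero] at hy1
      exact hz0 hy1.symm
    -- the polynomial identity
    have hfr : (f + r * g).natDegree ≤ 3 :=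
      le_trans (natDegree_add_le _ _) (max_le hf (le_trans natDegree_mul_le (by omega)))
    have h6 : aeval a (l * g * p₂) = aeval a (p₁ * (f + r * g)) := by
      simp only [map_mul, map_add]
      rw [← hy1]
      have h7 : ξ * aeval a p₂ * aeval a g = aeval a r * aeval a g + aeval a f := by
        rw [h2]
        field_simp
      linear_combination (aeval a p₁) * h7
    have h7 : l * g * p₂ = p₁ * (f + r * g) := by
      refine conc_inj hB ha ?_ ?_ h6
      · refine le_trans natDegree_mul_le ?_
        have := natDegree_mul_le (p := l) (q := g)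
        omega
      · refine le_trans natDegree_mul_le ?_
        omega
    have hco2 : IsCoprime (f + r * g) g := hco.add_mul_right_left r
    have h8 : g ∣ p₁ := by
      refine hco2.symm.dvd_of_dvd_mul_right (y := p₁) ?_
      rw [← h7]
      exact ⟨l * p₂, by ring⟩
    obtain ⟨k, rfl⟩ := h8
    have hk0 : k ≠ 0 := right_ne_zero_of_mul hp₁0
    have h9 : l * p₂ = k * (f + r * g) := by
      apply mul_left_cancel₀ hg0
      linear_combination h7
    have hdk : g.natDegree + k.natDegree ≤ 2 := by
      rw [← natDegree_mul hg0 hk0]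
      exact hp₁
    have hfr0 : g.natDegree ≤ 1 → (f + r * g).natDegree = 3 := by
      intro hg1
      have h8 : f.coeff 3 ≠ 0 := by
        rcases hinf with h8 | h8
        · exact h8
        · exact absurd (coeff_eq_zero_of_natDegree_lt (by omega)) h8
      refine le_antisymm hfr (le_natDegree_of_ne_zero ?_)
      rw [coeff_add, coeff_eq_zero_of_natDegree_lt (p := r * g)
        (lt_of_le_of_lt natDegree_mul_le (by omega)), add_zero]
      exact h8
    have hk : k.natDegree = 0 := by
      by_contra hk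
      have h10 := hfr0 (by omega)
      have h11 : f + r * g ≠ 0 := by
        intro h0
        rw [h0] at h10
        simp at h10
      have h12 : (l * p₂).natDegree = k.natDegree + 3 := by
        rw [h9, natDegree_mul hk0 h11, h10]
      have h13 : (l * p₂).natDegree ≤ l.natDegree + p₂.natDegree := natDegree_mul_le
      omega
    obtain ⟨κ, rfl⟩ := natDegree_eq_zero.1 hk
    have hκ : κ ≠ 0 := by
      rintro rfl
      exact hk0 C_0
    have h14 : ξ * aeval a g = κ⁻¹ • aeval a l := by
      rw [← hy1, map_mul, aeval_C, Algebra.smul_def, map_inv₀]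
      have : algebraMap F K κ ≠ 0 := by
        rw [Ne, FaithfulSMul.algebraMap_eq_zero_iff]
        exact hκ
      field_simp
    rcases Nat.eq_zero_or_pos l.natDegree with hl1 | hl1
    · -- constant
      right
      obtain ⟨lam, rfl⟩ := natDegree_eq_zero.1 hl1
      have hlam : lam ≠ 0 := by
        rintro rfl
        exact hl0 C_0
      refine ⟨?_, κ⁻¹ * lam, mul_ne_zero (inv_ne_zero hκ) hlam, ?_⟩
      · intro hg2
        have hg1 : g.natDegree ≤ 1 := by
          by_contra hcon
          have h15 : g.natDegree = 2 := by omega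
          have h16 : g.leadingCoeff = 0 := by
            unfold leadingCoeff
            rw [h15]
            exact hg2
          exact hg0 (leadingCoeff_eq_zero.1 h16)
        have h10 := hfr0 hg1
        have h12 : (C lam * p₂).natDegree = 3 := by
          rw [h9, natDegree_C_mul hκ, h10]
        have h13 := natDegree_C_mul_le lam p₂
        omega
      · rw [h14, aeval_C, Algebra.smul_def, map_mul]
    · -- degree one
      left
      have hl2 : l.natDegree = 1 := by omega
      set c : F := - (l.coeff 0) / l.coeff 1 with hc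
      have hl3 : l.coeff 1 ≠ 0 := by
        intro h0
        apply hl0
        rw [← leadingCoeff_eq_zero]
        unfold leadingCoeff
        rw [hl2]
        exact h0
      have hl4 : l = C (l.coeff 1) * (X - C c) := by
        conv_lhs => rw [eq_X_add_C_of_natDegree_le_one hl]
        rw [mul_sub, ← C_mul, hc]
        have : l.coeff 1 * (-l.coeff 0 / l.coeff 1) = - l.coeff 0 := by field_simp
        rw [this, C_neg, sub_neg_eq_add]
      refine ⟨κ⁻¹ * l.coeff 1, c, mul_ne_zero (inv_ne_zero hκ) hl3, ?_, ?_⟩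
      · intro hgc
        have h15 : l.eval c = 0 := by
          rw [hl4]
          simp
        have h16 := congrArg (fun p => Polynomial.eval c p) h9
        simp only [eval_mul, eval_add, h15, zero_mul, hgc, mul_zero, add_zero, eval_C] at h16
        have h17 : f.eval c = 0 := by
          rcases mul_eq_zero.1 h16.symm with h | h
          · exact absurd h hκ
          · exact h
        obtain ⟨A, B, hAB⟩ := hco
        have h18 := congrArg (fun p => Polynomial.eval c p) hAB
        simp [hgc, h17] at h18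
      · rw [h14]
        conv_lhs => rw [hl4]
        rw [map_mul, aeval_C, map_sub, aeval_X, aeval_C, mul_smul, Algebra.smul_def (l.coeff 1)]

private theorem conc_two [FiniteDimensional F K] (hB : Big F K) {a : K}
    (ha : a ∉ Set.range (algebraMap F K)) {f g : F[X]} (hf : f.natDegree ≤ 3)
    (hg : g.natDegree ≤ 2) (hg0 : g ≠ 0) (hco : IsCoprime f g)
    (hinf : f.coeff 3 ≠ 0 ∨ g.coeff 2 ≠ 0) {ξ : K} (hξ : ξ ≠ 0) {x y : K}
    (hxy : ∀ α β : F, α • x + β • y = 0 → α = 0 ∧ β = 0)
    (hxS : x ∈ Submodule.span F {1, a, aeval a f / aeval a g})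
    (hyS : y ∈ Submodule.span F {1, a, aeval a f / aeval a g})
    (hxT : x ∈ sc ξ (Submodule.span F {1, a, a ^ 2}))
    (hyT : y ∈ sc ξ (Submodule.span F {1, a, a ^ 2})) :
    finrank F ↥(Submodule.span F {1, a, aeval a f / aeval a g} ⊓
      sc ξ (Submodule.span F {1, a, a ^ 2})) = 2 := by
  have hsim := conc_not_sim hB ha hf hg hg0 hco hinf
  have hS3 := conc_finrank_three (conc_indep_S hB ha hf hg hg0 hco hinf)
  have hT3 := conc_finrank_three (conc_indep_T hB ha)
  set S : Submodule F K := Submodule.span F {1, a, aeval a f / aeval a g} with hS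
  set T : Submodule F K := Submodule.span F {1, a, a ^ 2} with hT
  have h1 : finrank F ↥(Submodule.span F {x, y}) = 2 := by
    have h1 := finrank_span_eq_card (LinearIndependent.pair_iff.2 hxy)
    rw [Matrix.range_cons, Matrix.range_cons, Matrix.range_empty, Set.union_empty,
      Set.singleton_union] at h1
    rw [h1, Fintype.card_fin]
  have h2 : Submodule.span F {x, y} ≤ S ⊓ sc ξ T := by
    rw [Submodule.span_le]
    rintro z (rfl | hz)
    · exact ⟨hxS, hxT⟩
    · rw [Set.mem_singleton_iff] at hz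
      subst hz
      exact ⟨hyS, hyT⟩
  have h3 := Submodule.finrank_mono h2
  rw [h1] at h3
  have h4 : finrank F ↥(S ⊓ sc ξ T) ≤ 3 := hS3 ▸ Submodule.finrank_mono inf_le_left
  have h5 : finrank F ↥(S ⊓ sc ξ T) ≠ 3 := by
    intro h5
    apply hsim
    refine ⟨ξ, hξ, ?_⟩
    have h6 : S ⊓ sc ξ T = S := Submodule.eq_of_le_of_finrank_eq inf_le_left (by rw [h5, hS3])
    have h7 : S ⊓ sc ξ T = sc ξ T :=
      Submodule.eq_of_le_of_finrank_eq inf_le_right (by rw [h5, conc_finrank_sc hξ, hT3])
    rw [← h7]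
    exact h6.symm
  omega

private theorem conc_back1 [FiniteDimensional F K] (hB : Big F K) {a : K}
    (ha : a ∉ Set.range (algebraMap F K)) {f g : F[X]} (hf : f.natDegree ≤ 3)
    (hg : g.natDegree ≤ 2) (hg0 : g ≠ 0) (hco : IsCoprime f g)
    (hinf : f.coeff 3 ≠ 0 ∨ g.coeff 2 ≠ 0) {ξ : K} {m : F[X]} (hm : m.natDegree ≤ 1)
    (h : ξ * aeval a m = 1) :
    finrank F ↥(Submodule.span F {1, a, aeval a f / aeval a g} ⊓
      sc ξ (Submodule.span F {1, a, a ^ 2})) = 2 := by
  have hξ : ξ ≠ 0 := by
    rintro rfl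
    rw [zero_mul] at h
    exact zero_ne_one h
  refine conc_two hB ha hf hg hg0 hco hinf hξ (x := 1) (y := a) ?_ ?_ ?_ ?_ ?_
  · exact LinearIndependent.pair_iff.1 (conc_indep_L hB ha)
  · exact Submodule.subset_span (by simp)
  · exact Submodule.subset_span (by simp)
  · exact conc_mem_sc.2 ⟨aeval a m, conc_mem_T.2 ⟨m, by omega, rfl⟩, h⟩
  · refine conc_mem_sc.2 ⟨aeval a (X * m), conc_mem_T.2 ⟨X * m, ?_, rfl⟩, ?_⟩
    · exact le_trans natDegree_mul_le (by rw [natDegree_X]; omega)
    · rw [map_mul, aeval_X]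
      linear_combination a * h

private theorem conc_back2 [FiniteDimensional F K] (hB : Big F K) {a : K}
    (ha : a ∉ Set.range (algebraMap F K)) {f g : F[X]} (hf : f.natDegree ≤ 3)
    (hg : g.natDegree ≤ 2) (hg0 : g ≠ 0) (hco : IsCoprime f g)
    (hinf : f.coeff 3 ≠ 0 ∨ g.coeff 2 ≠ 0) {ξ : K} {u c : F} (hu : u ≠ 0) (hc : g.eval c ≠ 0)
    (h : ξ * aeval a g = u • (a - algebraMap F K c)) :
    finrank F ↥(Submodule.span F {1, a, aeval a f / aeval a g} ⊓
      sc ξ (Submodule.span F {1, a, a ^ 2})) = 2 := by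
  have hga : aeval a g ≠ 0 := conc_ne hB ha (by omega) hg0
  have hac : a - algebraMap F K c ≠ 0 := by
    intro h0
    exact ha ⟨c, (sub_eq_zero.1 h0).symm⟩
  have hu' : algebraMap F K u ≠ 0 := by
    rw [Ne, FaithfulSMul.algebraMap_eq_zero_iff]
    exact hu
  have hgc : algebraMap F K (g.eval c) ≠ 0 := by
    rw [Ne, FaithfulSMul.algebraMap_eq_zero_iff]
    exact hc
  rw [Algebra.smul_def] at h
  have hξ : ξ ≠ 0 := by
    rintro rfl
    rw [zero_mul] at h
    exact mul_ne_zero hu' hac h.symm
  -- the second generator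
  have h1 : (X - C c) ∣ (C (g.eval c) * f - C (f.eval c) * g) := by
    rw [dvd_iff_isRoot]
    simp [IsRoot.def, mul_comm]
  obtain ⟨p, hp⟩ := h1
  have hpd : p.natDegree ≤ 2 := by
    by_cases hp0 : p = 0
    · rw [hp0, natDegree_zero]
      omega
    have h2 : ((X - C c) * p).natDegree = 1 + p.natDegree := by
      rw [natDegree_mul (X_sub_C_ne_zero c) hp0, natDegree_X_sub_C]
    have h3 : (C (g.eval c) * f - C (f.eval c) * g).natDegree ≤ 3 := by
      refine le_trans (natDegree_sub_le _ _) (max_le ?_ ?_)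
      · exact le_trans (natDegree_C_mul_le _ _) hf
      · exact le_trans (natDegree_C_mul_le _ _) (by omega)
    rw [hp, h2] at h3
    omega
  have hpa : algebraMap F K (g.eval c) * aeval a f - algebraMap F K (f.eval c) * aeval a g =
      (a - algebraMap F K c) * aeval a p := by
    have h2 := congrArg (fun r => aeval a r) hp
    simpa using h2
  refine conc_two hB ha hf hg hg0 hco hinf hξ (x := a - algebraMap F K c)
    (y := aeval a f / aeval a g - algebraMap F K (f.eval c / g.eval c)) ?_ ?_ ?_ ?_ ?_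
  · intro α β hαβ
    have h2 := conc_indep hB ha hf hg hg0 hco hinf
      (p := C α * X + C (-(α * c) - β * (f.eval c / g.eval c))) (γ := β) natDegree_linear_le (by
        rw [← hαβ]
        simp only [Algebra.smul_def, map_add, map_mul, aeval_C, aeval_X, map_sub, map_neg]
        ring)
    obtain ⟨h3, h4⟩ := h2
    have h5 := congrArg (fun p => Polynomial.coeff p 1) h3
    simp at h5
    exact ⟨h5, h4⟩
  · rw [conc_mem_S]
    refine ⟨X - C c, 0, ?_, ?_⟩
    · rw [natDegree_X_sub_C]
    · simp
  · rw [conc_mem_S]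
    refine ⟨C (-(f.eval c / g.eval c)), 1, ?_, ?_⟩
    · rw [natDegree_C]
      omega
    · rw [aeval_C, one_smul, map_neg]
      ring
  · refine conc_mem_sc.2 ⟨aeval a (C u⁻¹ * g), conc_mem_T.2 ⟨_, ?_, rfl⟩, ?_⟩
    · exact le_trans (natDegree_C_mul_le _ _) hg
    · rw [map_mul, aeval_C, map_inv₀]
      field_simp
      linear_combination h
  · refine conc_mem_sc.2 ⟨aeval a (C (u⁻¹ * (g.eval c)⁻¹) * p), conc_mem_T.2 ⟨_, ?_, rfl⟩, ?_⟩
    · exact le_trans (natDegree_C_mul_le _ _) hpd
    · rw [map_mul, aeval_C, map_mul, map_inv₀, map_inv₀, map_div₀]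
      have h5 : ξ = algebraMap F K u * (a - algebraMap F K c) / aeval a g := by
        rw [← h]
        field_simp
      rw [h5]
      field_simp
      linear_combination - hpa

private theorem conc_back3 [FiniteDimensional F K] (hB : Big F K) {a : K}
    (ha : a ∉ Set.range (algebraMap F K)) {f g : F[X]} (hf : f.natDegree ≤ 3)
    (hg : g.natDegree ≤ 2) (hg0 : g ≠ 0) (hco : IsCoprime f g)
    (hinf : f.coeff 3 ≠ 0 ∨ g.coeff 2 ≠ 0) {ξ : K} {u : F} (hu : u ≠ 0) (hg2 : g.coeff 2 ≠ 0)
    (h : ξ * aeval a g = algebraMap F K u) :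
    finrank F ↥(Submodule.span F {1, a, aeval a f / aeval a g} ⊓
      sc ξ (Submodule.span F {1, a, a ^ 2})) = 2 := by
  have hga : aeval a g ≠ 0 := conc_ne hB ha (by omega) hg0
  have hu' : algebraMap F K u ≠ 0 := by
    rw [Ne, FaithfulSMul.algebraMap_eq_zero_iff]
    exact hu
  have hξ : ξ ≠ 0 := by
    rintro rfl
    rw [zero_mul] at h
    exact hu' h.symm
  have h5 : ξ = algebraMap F K u / aeval a g := by
    rw [← h]
    field_simp
  set e : F := f.coeff 3 / g.coeff 2 with he
  refine conc_two hB ha hf hg hg0 hco hinf hξ (x := 1)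
    (y := aeval a f / aeval a g - algebraMap F K e * a) ?_ ?_ ?_ ?_ ?_
  · intro α β hαβ
    have h2 := conc_indep hB ha hf hg hg0 hco hinf
      (p := C (-(β * e)) * X + C α) (γ := β) natDegree_linear_le (by
        rw [← hαβ]
        simp only [Algebra.smul_def, map_add, map_mul, aeval_C, aeval_X, map_neg]
        ring)
    obtain ⟨h3, h4⟩ := h2
    have h6 := congrArg (fun p => Polynomial.coeff p 0) h3
    simp at h6
    exact ⟨h6, h4⟩
  · exact Submodule.subset_span (by simp)
  · rw [conc_mem_S]
    refine ⟨C (-e) * X, 1, ?_, ?_⟩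
    · exact le_trans (natDegree_C_mul_le _ _) natDegree_X_le
    · rw [map_mul, aeval_C, one_smul, map_neg, aeval_X]
      ring
  · refine conc_mem_sc.2 ⟨aeval a (C u⁻¹ * g), conc_mem_T.2 ⟨_, ?_, rfl⟩, ?_⟩
    · exact le_trans (natDegree_C_mul_le _ _) hg
    · rw [map_mul, aeval_C, map_inv₀]
      field_simp
      linear_combination h
  · refine conc_mem_sc.2 ⟨aeval a (C u⁻¹ * (f - C e * (X * g))), conc_mem_T.2 ⟨_, ?_, rfl⟩, ?_⟩
    · refine le_trans (natDegree_C_mul_le _ _) ?_
      have h6 : (f - C e * (X * g)).natDegree ≤ 3 := by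
        refine le_trans (natDegree_sub_le _ _) (max_le hf ?_)
        refine le_trans (natDegree_C_mul_le _ _) (le_trans natDegree_mul_le ?_)
        rw [natDegree_X]
        omega
      by_contra hcon
      have h7 : (f - C e * (X * g)).natDegree = 3 := by omega
      have h8 : (f - C e * (X * g)).coeff 3 = 0 := by
        rw [coeff_sub, coeff_C_mul, coeff_X_mul, he]
        field_simp
        ring
      have h9 : (f - C e * (X * g)).leadingCoeff = 0 := by
        unfold leadingCoeff
        rw [h7]
        exact h8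
      rw [leadingCoeff_eq_zero] at h9
      rw [h9] at h7
      simp at h7
    · rw [h5]
      simp only [map_mul, aeval_C, map_inv₀, map_sub, aeval_X]
      field_simp

open Classical in
theorem conn_count [Finite F] [FiniteDimensional F K] (hB : Big F K) {a : K}
    (ha : a ∉ Set.range (algebraMap F K)) {f g : F[X]} (hf : f.natDegree ≤ 3)
    (hg : g.natDegree ≤ 2) (hg0 : g ≠ 0) (hco : IsCoprime f g)
    (hinf : f.coeff 3 ≠ 0 ∨ g.coeff 2 ≠ 0) :
    LinearIndependent F ![1, a, aeval a f / aeval a g] ∧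
    ¬ Sim (Submodule.span F {1, a, aeval a f / aeval a g}) (Submodule.span F {1, a, a ^ 2}) ∧
    inn (Submodule.span F {1, a, aeval a f / aeval a g}) (Submodule.span F {1, a, a ^ 2}) 2 =
      (Nat.card F - 1) * (Nat.card F + 1 + Nat.card {c : F // g.eval c ≠ 0} +
        (if g.coeff 2 = 0 then 0 else 1)) := by
  refine ⟨conc_indep_S hB ha hf hg hg0 hco hinf, conc_not_sim hB ha hf hg hg0 hco hinf, ?_⟩
  have hga : aeval a g ≠ 0 := conc_ne hB ha (by omega) hg0
  have hinjF : Function.Injective (algebraMap F K) := (algebraMap F K).injective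
  have hu0 : ∀ u : Fˣ, algebraMap F K u ≠ 0 := by
    intro u
    rw [Ne, FaithfulSMul.algebraMap_eq_zero_iff]
    exact u.ne_zero
  have hac : ∀ c : F, a - algebraMap F K c ≠ 0 := by
    intro c h0
    exact ha ⟨c, (sub_eq_zero.1 h0).symm⟩
  have hlin : ∀ p : F × F, p ≠ 0 → algebraMap F K p.2 * a + algebraMap F K p.1 ≠ 0 := by
    intro p hp h0
    have h1 := LinearIndependent.pair_iff.1 (conc_indep_L hB ha) p.1 p.2 (by
      rw [← h0]
      simp [Algebra.smul_def]
      ring)
    exact hp (Prod.ext h1.1 h1.2)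
  let Φ : ({p : F × F // p ≠ 0} ⊕ (Fˣ × {c : F // g.eval c ≠ 0}) ⊕
      {_u : Fˣ // g.coeff 2 ≠ 0}) → K := fun x => match x with
    | Sum.inl p => (algebraMap F K p.1.2 * a + algebraMap F K p.1.1)⁻¹
    | Sum.inr (Sum.inl q) => algebraMap F K q.1 * (a - algebraMap F K q.2.1) / aeval a g
    | Sum.inr (Sum.inr u) => algebraMap F K u.1 / aeval a g
  have hlin2 : ∀ α β : F, algebraMap F K β * a + algebraMap F K α = 0 → α = 0 ∧ β = 0 := by
    intro α β h0
    exact LinearIndependent.pair_iff.1 (conc_indep_L hB ha) α β (by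
      rw [← h0]
      simp [Algebra.smul_def]
      ring)
  have x12 : ∀ (p : F × F) (u : Fˣ) (c : F), p ≠ 0 → g.eval c ≠ 0 →
      (algebraMap F K p.2 * a + algebraMap F K p.1)⁻¹ ≠
        algebraMap F K u * (a - algebraMap F K c) / aeval a g := by
    intro p u c hp hc h
    have h1 := hlin p hp
    have h2 : aeval a g = aeval a (C (u : F) * ((X - C c) * (C p.2 * X + C p.1))) := by
      simp only [map_mul, aeval_C, map_sub, aeval_X, map_add]
      field_simp at h
      linear_combination h
    have h3 := conc_inj hB ha (by omega) (by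
      refine le_trans (natDegree_C_mul_le _ _) (le_trans natDegree_mul_le ?_)
      rw [natDegree_X_sub_C]
      have := natDegree_linear_le (a := p.2) (b := p.1)
      omega) h2
    apply hc
    rw [h3]
    simp
  have x13 : ∀ (p : F × F) (u : Fˣ), p ≠ 0 → g.coeff 2 ≠ 0 →
      (algebraMap F K p.2 * a + algebraMap F K p.1)⁻¹ ≠ algebraMap F K u / aeval a g := by
    intro p u hp hc h
    have h1 := hlin p hp
    have h2 : aeval a g = aeval a (C (u : F) * (C p.2 * X + C p.1)) := by
      simp only [map_mul, aeval_C, aeval_X, map_add]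
      field_simp at h
      linear_combination h
    have h4 : (C (u : F) * (C p.2 * X + C p.1)).natDegree ≤ 1 :=
      le_trans (natDegree_C_mul_le _ _) natDegree_linear_le
    have h3 := conc_inj hB ha (by omega) (by omega) h2
    apply hc
    rw [h3]
    exact coeff_eq_zero_of_natDegree_lt (by omega)
  have x23 : ∀ (u : Fˣ) (c : F) (u' : Fˣ), algebraMap F K u * (a - algebraMap F K c) / aeval a g ≠
      algebraMap F K u' / aeval a g := by
    intro u c u' h
    have h1 : algebraMap F K u * (a - algebraMap F K c) = algebraMap F K u' := by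
      field_simp at h
      linear_combination h
    have h2 := (hlin2 (- (u * c) - u') u (by
      rw [map_sub, map_neg, map_mul]
      linear_combination h1)).2
    exact u.ne_zero h2
  have hΦ : Function.Injective Φ := by
    rintro (⟨p, hp⟩ | ⟨u, c, hc⟩ | ⟨u, hu⟩) (⟨p', hp'⟩ | ⟨u', c', hc'⟩ | ⟨u', hu'⟩) h
    · have h1 : algebraMap F K p.2 * a + algebraMap F K p.1 =
          algebraMap F K p'.2 * a + algebraMap F K p'.1 := inv_injective h
      have h2 := hlin2 (p.1 - p'.1) (p.2 - p'.2) (by
        rw [map_sub, map_sub]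
        linear_combination h1)
      have h3 : p = p' := Prod.ext (sub_eq_zero.1 h2.1) (sub_eq_zero.1 h2.2)
      subst h3
      rfl
    · exact absurd h (x12 p u' c' hp hc')
    · exact absurd h (x13 p u' hp hu')
    · exact absurd h.symm (x12 p' u c hp' hc)
    · have h0 : algebraMap F K u * (a - algebraMap F K c) / aeval a g =
          algebraMap F K u' * (a - algebraMap F K c') / aeval a g := h
      have h1 : algebraMap F K u * (a - algebraMap F K c) =
          algebraMap F K u' * (a - algebraMap F K c') := by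
        field_simp at h0
        linear_combination h0
      have h2 := hlin2 (-(u * c) + u' * c') (u - u') (by
        simp only [map_sub, map_add, map_neg, map_mul]
        linear_combination h1)
      have h3 : u = u' := Units.ext (sub_eq_zero.1 h2.2)
      subst h3
      have h4 : c = c' := by
        have h5 : (u : F) * c = u * c' := by linear_combination - h2.1
        exact mul_left_cancel₀ u.ne_zero h5
      subst h4
      rfl
    · exact absurd h (x23 u c u')
    · exact absurd h.symm (x13 p' u hp' hu)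
    · exact absurd h.symm (x23 u' c' u)
    · have h0 : algebraMap F K u / aeval a g = algebraMap F K u' / aeval a g := h
      have h1 : algebraMap F K u = algebraMap F K u' := by
        field_simp at h0
        exact h0
      have h3 : u = u' := Units.ext (hinjF h1)
      subst h3
      rfl
  have hrange : Set.range Φ = {ξ : K | ξ ≠ 0 ∧
      finrank F ↥(Submodule.span F {1, a, aeval a f / aeval a g} ⊓
        sc ξ (Submodule.span F {1, a, a ^ 2})) = 2} := by
    ext ξ
    constructor
    · rintro ⟨x, rfl⟩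
      rcases x with ⟨p, hp⟩ | ⟨u, c, hc⟩ | ⟨u, hu⟩
      · have h1 := hlin p hp
        refine ⟨inv_ne_zero h1, ?_⟩
        refine conc_back1 hB ha hf hg hg0 hco hinf (m := C p.2 * X + C p.1) natDegree_linear_le ?_
        change (algebraMap F K p.2 * a + algebraMap F K p.1)⁻¹ * _ = 1
        simp only [map_mul, aeval_C, aeval_X, map_add]
        exact inv_mul_cancel₀ h1
      · refine ⟨div_ne_zero (mul_ne_zero (hu0 u) (hac c)) hga, ?_⟩
        refine conc_back2 hB ha hf hg hg0 hco hinf (u := u) (c := c) u.ne_zero hc ?_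
        change algebraMap F K u * (a - algebraMap F K c) / aeval a g * _ = _
        rw [Algebra.smul_def]
        field_simp
      · refine ⟨div_ne_zero (hu0 u) hga, ?_⟩
        refine conc_back3 hB ha hf hg hg0 hco hinf (u := u) u.ne_zero hu ?_
        change algebraMap F K u / aeval a g * _ = _
        field_simp
    · rintro ⟨hξ, h⟩
      rcases conc_forward hB ha hf hg hg0 hco hinf hξ h with ⟨m, hm0, hm, h1⟩ |
        ⟨u, c, hu, hc, h1⟩ | ⟨hg2, u, hu, h1⟩
      · have h2 : aeval a m = algebraMap F K (m.coeff 1) * a + algebraMap F K (m.coeff 0) := by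
          conv_lhs => rw [eq_X_add_C_of_natDegree_le_one hm]
          simp
        refine ⟨Sum.inl ⟨(m.coeff 0, m.coeff 1), ?_⟩, ?_⟩
        · intro h3
          rw [Prod.mk_eq_zero] at h3
          apply hm0
          rw [eq_X_add_C_of_natDegree_le_one hm, h3.1, h3.2]
          simp
        · change (algebraMap F K (m.coeff 1) * a + algebraMap F K (m.coeff 0))⁻¹ = ξ
          rw [← h2]
          exact inv_eq_of_mul_eq_one_left h1
      · refine ⟨Sum.inr (Sum.inl (Units.mk0 u hu, ⟨c, hc⟩)), ?_⟩
        change algebraMap F K u * (a - algebraMap F K c) / aeval a g = ξ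
        rw [Algebra.smul_def] at h1
        rw [← h1]
        field_simp
      · refine ⟨Sum.inr (Sum.inr ⟨Units.mk0 u hu, hg2⟩), ?_⟩
        change algebraMap F K u / aeval a g = ξ
        rw [← h1]
        field_simp
  have hcard : inn (Submodule.span F {1, a, aeval a f / aeval a g})
      (Submodule.span F {1, a, a ^ 2}) 2 = Nat.card ({p : F × F // p ≠ 0} ⊕
        (Fˣ × {c : F // g.eval c ≠ 0}) ⊕ {_u : Fˣ // g.coeff 2 ≠ 0}) := by
    unfold inn
    rw [← Nat.card_range_of_injective hΦ, hrange]
    rfl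
  rw [hcard, Nat.card_sum, Nat.card_sum, Nat.card_prod, Nat.card_units]
  have hc1 : Nat.card {p : F × F // p ≠ 0} = Nat.card F * Nat.card F - 1 := by
    have := Fintype.ofFinite F
    rw [Nat.card_eq_fintype_card, Fintype.card_subtype_compl, Fintype.card_subtype_eq,
      Fintype.card_prod, Nat.card_eq_fintype_card]
  have hc2 : Nat.card {_u : Fˣ // g.coeff 2 ≠ 0} =
      (Nat.card F - 1) * (if g.coeff 2 = 0 then 0 else 1) := by
    by_cases h : g.coeff 2 = 0
    · rw [if_pos h, mul_zero, Nat.card_eq_zero]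
      left
      exact ⟨fun x => x.2 h⟩
    · rw [if_neg h, mul_one, ← Nat.card_units]
      exact Nat.card_congr (Equiv.subtypeUnivEquiv fun _ => h)
  rw [hc1, hc2]
  obtain ⟨k, hk⟩ : ∃ k, Nat.card F = k + 1 := ⟨Nat.card F - 1, by
    have := Nat.card_pos (α := F)
    omega⟩
  rw [hk]
  have h5 : (k + 1) * (k + 1) - 1 = k * (k + 1 + 1) := by
    rw [Nat.sub_eq_iff_eq_add (by nlinarith)]
    ring
  rw [h5, Nat.add_sub_cancel]
  ring

end Pool.Agent.Helper74.CW
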